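import Mathlib
import Pool.Agent.R31.PlaneHomology
import Pool.Agent.R31.TwoTorsion

/-!
# Half-integral rational triangle decompositions of planar multigraphs (MP_d6a58d_co)

Every rationally triangle-decomposable planar multigraph has a rational triangle decomposition with
all weights in `{0, 1/2, 1}`.
-/

set_option autoImplicit false
set_option linter.unusedSectionVars false

namespace Pool.Agent.Results.MP_d6a58d_co.HalfIntegral

open Pool.Agent.R31

/-! ### Definitions -/

/-- A multigraph without loops on the vertex set `V` with the edge set `E`; `ends e` is the pair of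
end vertices of the edge `e`. -/
structure Multigraph (V E : Type) where
  /-- the two end vertices of an edge -/
  ends : E → Sym2 V
  no_loop : ∀ e, ¬ (ends e).IsDiag

/-- A connected plane multigraph on the vertex set `V`, given by a rotation system on the sphere.
Every edge consists of two darts (its two orientations) exchanged by `rev`; `base d` is the vertex
at which the dart `d` starts; `rot` lists the darts around each vertex in their cyclic order. The
faces are the cycles of `rev` followed by `rot`, and Euler's formula `|V| - |E| + |F| = 2` holds. -/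
structure PlaneMap (V : Type) where
  /-- the oriented edges -/
  Dart : Type
  finite_dart : Finite Dart
  /-- the start vertex of a dart -/
  base : Dart → V
  /-- the reversed dart -/
  rev : Equiv.Perm Dart
  /-- the next dart around the start vertex -/
  rot : Equiv.Perm Dart
  rev_rev : ∀ d, rev (rev d) = d
  rev_ne : ∀ d, rev d ≠ d
  rot_cycle : ∀ d d', rot.SameCycle d d' ↔ base d = base d'
  connected : ∀ u v : V,
    Relation.ReflTransGen (fun a b => ∃ d, base d = a ∧ base (rev d) = b) u v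
  euler : 2 * (Nat.card V + Nat.card (Quotient (Equiv.Perm.SameCycle.setoid (rev.trans rot)))) =
    Nat.card Dart + 4

namespace Multigraph

variable {V E : Type} (G : Multigraph V E)

/-- `G` is planar: it is contained in a connected plane multigraph on the same vertex set. Here `f`
sends an edge to one of the two darts of an edge with the same ends, and different edges of `G`
go to different edges. -/
def Planar : Prop :=
  Nonempty V → ∃ (P : PlaneMap V) (f : E → P.Dart),
    (∀ e, s(P.base (f e), P.base (P.rev (f e))) = G.ends e) ∧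
    ∀ e e', f e = f e' ∨ f e = P.rev (f e') → e = e'

/-- `t` consists of the three edges of a triangle: three distinct vertices `u, v, w` with one edge
joining `u, v`, one joining `v, w` and one joining `w, u`. -/
def IsTriangle [DecidableEq E] (t : Finset E) : Prop :=
  ∃ (u v w : V) (e₁ e₂ e₃ : E), u ≠ v ∧ v ≠ w ∧ w ≠ u ∧ G.ends e₁ = s(u, v) ∧
    G.ends e₂ = s(v, w) ∧ G.ends e₃ = s(w, u) ∧ t = {e₁, e₂, e₃}

open Classical in
/-- A rational triangle decomposition: nonnegative weights on the triangles such that for every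
edge the weights of the triangles containing it sum to one. -/
def IsRationalDecomposition [Fintype E] [DecidableEq E] (w : {t : Finset E // G.IsTriangle t} → ℚ) :
    Prop :=
  (∀ t, 0 ≤ w t) ∧ ∀ e : E, ∑ t with e ∈ t.1, w t = 1

end Multigraph

/-! ### Triangles and even sets of pairs -/

section Even

variable {V : Type} [Fintype V] [DecidableEq V]

/-- The three sides of a triangle. -/
def tri (a b c : V) : Finset (Sym2 V) := {s(a, b), s(b, c), s(c, a)}

/-- A set of three pairs forming a triangle. -/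
def IsTri (T : Finset (Sym2 V)) : Prop := ∃ a b c, a ≠ b ∧ b ≠ c ∧ c ≠ a ∧ T = tri a b c

/-- `h` has even degree everywhere. -/
def Even₂ (h : Sym2 V → ZMod 2) : Prop := ∀ u, ∑ v, h s(u, v) = 0

theorem tri_rot (a b c : V) : tri a b c = tri b c a := by
  ext t
  simp only [tri, Finset.mem_insert, Finset.mem_singleton]
  tauto

theorem tri_card {a b c : V} (h1 : a ≠ b) (h2 : b ≠ c) (h3 : c ≠ a) : (tri a b c).card = 3 := by
  rw [tri, Finset.card_eq_three]
  refine ⟨_, _, _, ?_, ?_, ?_, rfl⟩
  · intro h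
    rw [Sym2.eq_iff] at h
    rcases h with ⟨h, -⟩ | ⟨h, -⟩
    · exact h1 h
    · exact h3 h.symm
  · intro h
    rw [Sym2.eq_iff] at h
    rcases h with ⟨h, -⟩ | ⟨-, h⟩
    · exact h3 h.symm
    · exact h2 h
  · intro h
    rw [Sym2.eq_iff] at h
    rcases h with ⟨h, -⟩ | ⟨h, -⟩
    · exact h2 h
    · exact h1 h.symm

theorem mem_tri {a b c x y : V} : s(x, y) ∈ tri a b c ↔ (x = a ∧ y = b ∨ x = b ∧ y = a) ∨
    (x = b ∧ y = c ∨ x = c ∧ y = b) ∨ (x = c ∧ y = a ∨ x = a ∧ y = c) := by
  simp only [tri, Finset.mem_insert, Finset.mem_singleton, Sym2.eq_iff]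

theorem not_mem_tri {a b c x y : V} (h1 : x ≠ a) (h2 : x ≠ b) (h3 : x ≠ c) :
    s(x, y) ∉ tri a b c := by
  rw [mem_tri]
  tauto

theorem even_pair {h : Sym2 V → ZMod 2} (he : Even₂ h) {u a b : V} (hab : a ≠ b)
    (h0 : ∀ v, v ≠ a → v ≠ b → h s(u, v) = 0) : h s(u, a) = h s(u, b) := by
  have := he u
  rw [Fintype.sum_eq_add a b hab (fun v hv => h0 v hv.1 hv.2)] at this
  exact PlaneHomology.eq_of_add_eq_zero₂ this

theorem even_single {h : Sym2 V → ZMod 2} (he : Even₂ h) {u a : V}
    (h0 : ∀ v, v ≠ a → h s(u, v) = 0) : h s(u, a) = 0 := by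
  have := he u
  rwa [Fintype.sum_eq_single a h0] at this

/-- An even set contained in a triangle. -/
theorem even_tri {h : Sym2 V → ZMod 2} (he : Even₂ h) {a b c : V} (h1 : a ≠ b) (h2 : b ≠ c)
    (h3 : c ≠ a) (hs : ∀ t, t ∉ tri a b c → h t = 0) :
    ∀ t, h t = if t ∈ tri a b c then h s(a, b) else 0 := by
  have e1 : h s(a, b) = h s(a, c) := by
    apply even_pair he h2
    intro v hv1 hv2
    apply hs
    rw [mem_tri]
    tauto
  have e2 : h s(b, a) = h s(b, c) := by
    apply even_pair he h3.symm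
    intro v hv1 hv2
    apply hs
    rw [mem_tri]
    tauto
  intro t
  by_cases ht : t ∈ tri a b c
  · rw [if_pos ht]
    simp only [tri, Finset.mem_insert, Finset.mem_singleton] at ht
    rcases ht with rfl | rfl | rfl
    · rfl
    · rw [← e2, Sym2.eq_swap]
    · rw [Sym2.eq_swap, ← e1]
  · rw [if_neg ht, hs t ht]

theorem even_add {h h' : Sym2 V → ZMod 2} (he : Even₂ h) (he' : Even₂ h') :
    Even₂ (fun t => h t + h' t) := by
  intro u
  rw [Finset.sum_add_distrib, he u, he' u, add_zero]

theorem even_tri_ind {a b c : V} (h1 : a ≠ b) (h2 : b ≠ c) (h3 : c ≠ a) (s : ZMod 2) :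
    Even₂ (fun t => if t ∈ tri a b c then s else 0) := by
  have key : ∀ a b c : V, a ≠ b → b ≠ c → c ≠ a →
      ∑ v, (if s(a, v) ∈ tri a b c then s else 0) = 0 := by
    intro a b c h1 h2 h3
    rw [Fintype.sum_eq_add b c h2]
    · rw [if_pos (by rw [mem_tri]; tauto), if_pos (by rw [mem_tri]; tauto),
        PlaneHomology.add_self₂]
    · intro v hv
      rw [if_neg]
      rw [mem_tri]
      tauto
  intro u
  by_cases ha : u = a
  · subst ha; exact key _ _ _ h1 h2 h3
  by_cases hb : u = b
  · subst hb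
    rw [tri_rot]; exact key _ _ _ h2 h3 h1
  by_cases hc : u = c
  · subst hc
    rw [tri_rot, tri_rot]; exact key _ _ _ h3 h1 h2
  refine Finset.sum_eq_zero fun v _ => ?_
  exact if_neg (not_mem_tri ha hb hc)

/-- Two different triangles each have a vertex not in the other. -/
theorem exists_vertex {a b c a' b' c' : V} (h1 : a ≠ b) (h2 : b ≠ c) (h3 : c ≠ a)
    (h1' : a' ≠ b') (h2' : b' ≠ c') (h3' : c' ≠ a') (hne : tri a b c ≠ tri a' b' c') :
    ∃ x y z, x ≠ y ∧ y ≠ z ∧ z ≠ x ∧ tri x y z = tri a b c ∧ z ≠ a' ∧ z ≠ b' ∧ z ≠ c' := by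
  by_contra hcon
  have hv : ∀ x y z, x ≠ y → y ≠ z → z ≠ x → tri x y z = tri a b c →
      z = a' ∨ z = b' ∨ z = c' := by
    intro x y z g1 g2 g3 g4
    by_contra g5
    push Not at g5
    exact hcon ⟨x, y, z, g1, g2, g3, g4, g5.1, g5.2.1, g5.2.2⟩
  have hc := hv a b c h1 h2 h3 rfl
  have ha := hv b c a h2 h3 h1 (tri_rot a b c).symm
  have hb := hv c a b h3 h1 h2 (tri_rot c a b)
  have hsub : tri a b c ⊆ tri a' b' c' := by
    have hxy : ∀ x y, x ≠ y → (x = a' ∨ x = b' ∨ x = c') → (y = a' ∨ y = b' ∨ y = c') →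
        s(x, y) ∈ tri a' b' c' := by
      intro x y hxy hx hy
      rw [mem_tri]
      rcases hx with rfl | rfl | rfl <;> rcases hy with rfl | rfl | rfl <;>
        first | exact absurd rfl hxy | simp
    intro t ht
    simp only [tri, Finset.mem_insert, Finset.mem_singleton] at ht
    rcases ht with rfl | rfl | rfl
    · exact hxy _ _ h1 ha hb
    · exact hxy _ _ h2 hb hc
    · exact hxy _ _ h3 hc ha
  apply hne
  apply Finset.eq_of_subset_of_card_le hsub
  rw [tri_card h1 h2 h3, tri_card h1' h2' h3']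

/-- An even set contained in the union of two triangles. -/
theorem even_two_tri {h : Sym2 V → ZMod 2} (he : Even₂ h) {T T' : Finset (Sym2 V)} (hT : IsTri T)
    (hT' : IsTri T') (hne : T ≠ T') (hs : ∀ t, t ∉ T → t ∉ T' → h t = 0) :
    ∃ s s' : ZMod 2, ∀ t, h t = (if t ∈ T then s else 0) + (if t ∈ T' then s' else 0) := by
  obtain ⟨a, b, c, h1, h2, h3, rfl⟩ := hT
  obtain ⟨a', b', c', h1', h2', h3', rfl⟩ := hT'
  obtain ⟨x, y, z, g1, g2, g3, g4, z1, z2, z3⟩ := exists_vertex h1 h2 h3 h1' h2' h3' hne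
  obtain ⟨x', y', z', g1', g2', g3', g4', z1', z2', z3'⟩ :=
    exists_vertex h1' h2' h3' h1 h2 h3 hne.symm
  -- `z` is not a vertex of the second triangle
  have hz : ∀ v, s(z, v) ∉ tri a' b' c' := fun v => not_mem_tri z1 z2 z3
  have hz' : ∀ v, s(z', v) ∉ tri a b c := fun v => not_mem_tri z1' z2' z3'
  rw [← g4, ← g4'] at hs ⊢
  rw [← g4'] at hz
  rw [← g4] at hz'
  clear g4 g4' hne z1 z2 z3 z1' z2' z3'
  refine ⟨h s(z, x), h s(z', x'), ?_⟩
  have k1 : h s(z, x) = h s(z, y) := by
    apply even_pair he g1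
    intro v hv1 hv2
    apply hs _ _ (hz v)
    rw [mem_tri]
    tauto
  have k2 : h s(z', x') = h s(z', y') := by
    apply even_pair he g1'
    intro v hv1 hv2
    apply hs _ (hz' v)
    rw [mem_tri]
    tauto
  -- subtract
  have he₂ := even_add (even_add he (even_tri_ind g1 g2 g3 (h s(z, x))))
    (even_tri_ind g1' g2' g3' (h s(z', x')))
  set h₂ : Sym2 V → ZMod 2 := fun t => h t + (if t ∈ tri x y z then h s(z, x) else 0) +
    (if t ∈ tri x' y' z' then h s(z', x') else 0) with hh₂
  have hsupp : ∀ t, t ≠ s(x, y) → t ≠ s(x', y') → h₂ t = 0 := by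
    intro t ht ht'
    simp only [hh₂]
    by_cases m : t ∈ tri x y z
    · by_cases m' : t ∈ tri x' y' z'
      · exfalso
        simp only [tri, Finset.mem_insert, Finset.mem_singleton] at m
        rcases m with m | m | m
        · exact ht m
        · rw [m, Sym2.eq_swap] at m'
          exact hz _ m'
        · rw [m] at m'
          exact hz _ m'
      · rw [if_pos m, if_neg m', add_zero]
        simp only [tri, Finset.mem_insert, Finset.mem_singleton] at m
        rcases m with m | m | m
        · exact absurd m ht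
        · rw [m, Sym2.eq_swap, ← k1, PlaneHomology.add_self₂]
        · rw [m, PlaneHomology.add_self₂]
    · by_cases m' : t ∈ tri x' y' z'
      · rw [if_neg m, if_pos m', add_zero]
        simp only [tri, Finset.mem_insert, Finset.mem_singleton] at m'
        rcases m' with m' | m' | m'
        · exact absurd m' ht'
        · rw [m', Sym2.eq_swap, ← k2, PlaneHomology.add_self₂]
        · rw [m', PlaneHomology.add_self₂]
      · rw [if_neg m, if_neg m', hs t m m', add_zero, add_zero]
  have hzero : ∀ t, h₂ t = 0 := by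
    have hone : ∀ p q : V, (∀ t, t ≠ s(p, q) → h₂ t = 0) → p ≠ q → h₂ s(p, q) = 0 := by
      intro p q hpq hne
      apply even_single he₂
      intro v hv
      apply hpq
      intro h'
      rw [Sym2.eq_iff] at h'
      rcases h' with ⟨-, h'⟩ | ⟨h', -⟩
      · exact hv h'
      · exact hne h'
    have hxy : h₂ s(x, y) = 0 := by
      by_cases hsame : s(x, y) = s(x', y')
      · apply hone _ _ _ g1
        intro t ht
        exact hsupp t ht (by rw [← hsame]; exact ht)
      · by_cases hx : x = x' ∨ x = y'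
        · have hy : y ≠ x' ∧ y ≠ y' := by
            constructor
            · rintro rfl
              rcases hx with rfl | rfl
              · exact g1 rfl
              · exact hsame Sym2.eq_swap
            · rintro rfl
              rcases hx with rfl | rfl
              · exact hsame rfl
              · exact g1 rfl
          rw [Sym2.eq_swap]
          apply even_single he₂
          intro v hv
          apply hsupp
          · intro h'
            rw [Sym2.eq_iff] at h'
            rcases h' with ⟨h', -⟩ | ⟨-, h'⟩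
            · exact g1 h'.symm
            · exact hv h'
          · intro h'
            rw [Sym2.eq_iff] at h'
            rcases h' with ⟨h', -⟩ | ⟨h', -⟩
            · exact hy.1 h'
            · exact hy.2 h'
        · push Not at hx
          apply even_single he₂
          intro v hv
          apply hsupp
          · intro h'
            rw [Sym2.eq_iff] at h'
            rcases h' with ⟨-, h'⟩ | ⟨h', -⟩
            · exact hv h'
            · exact g1 h'
          · intro h'
            rw [Sym2.eq_iff] at h'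
            rcases h' with ⟨h', -⟩ | ⟨h', -⟩
            · exact hx.1 h'
            · exact hx.2 h'
    have hx'y' : h₂ s(x', y') = 0 := by
      apply hone _ _ _ g1'
      intro t ht
      by_cases h' : t = s(x, y)
      · rw [h', hxy]
      · exact hsupp t h' ht
    intro t
    by_cases h' : t = s(x, y)
    · rw [h', hxy]
    · by_cases h'' : t = s(x', y')
      · rw [h'', hx'y']
      · exact hsupp t h' h''
  intro t
  have := hzero t
  simp only [hh₂, add_assoc] at this
  exact PlaneHomology.eq_of_add_eq_zero₂ this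

end Even

/-! ### Plane maps -/

namespace PlaneMap

variable {V : Type} [Fintype V] [DecidableEq V] (P : PlaneMap V)

/-- The faces. -/
abbrev Face : Type := Quotient (Equiv.Perm.SameCycle.setoid (P.rev.trans P.rot))

/-- The face of a dart. -/
def face (d : P.Dart) : P.Face := Quotient.mk _ d

theorem face_rot_rev (d : P.Dart) : P.face (P.rot (P.rev d)) = P.face d := by
  apply Quotient.sound
  change Equiv.Perm.SameCycle (P.rev.trans P.rot) ((P.rev.trans P.rot) d) d
  exact Equiv.Perm.sameCycle_apply_left.mpr (Equiv.Perm.SameCycle.refl _ _)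

theorem face_surj (f : P.Face) : ∃ d, P.face d = f := Quotient.exists_rep f

theorem base_rot (d : P.Dart) : P.base (P.rot d) = P.base d :=
  (P.rot_cycle _ _).mp (Equiv.Perm.sameCycle_apply_left.mpr (Equiv.Perm.SameCycle.refl _ _))

theorem nonempty_dart [Nonempty V] : Nonempty P.Dart := by
  by_contra hempty
  rw [not_nonempty_iff] at hempty
  have h := P.euler
  have hF : IsEmpty (Quotient (Equiv.Perm.SameCycle.setoid (P.rev.trans P.rot))) := by
    constructor
    rintro ⟨d⟩
    exact hempty.false d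
  rw [Nat.card_of_isEmpty (α := P.Dart), Nat.card_of_isEmpty (α := Quotient _),
    Nat.card_eq_fintype_card] at h
  have h2 : 1 < Fintype.card V := by omega
  obtain ⟨u, v, huv⟩ := Fintype.one_lt_card_iff.mp h2
  rcases (P.connected u v).cases_head with h3 | ⟨_, ⟨d, _⟩, _⟩
  · exact huv h3
  · exact hempty.false d

theorem base_surj : Function.Surjective P.base := by
  intro v
  have : Nonempty V := ⟨v⟩
  obtain ⟨d⟩ := P.nonempty_dart
  rcases (P.connected v (P.base d)).cases_head with h3 | ⟨_, ⟨d', hd', _⟩, _⟩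
  · exact ⟨d, h3.symm⟩
  · exact ⟨d', hd'⟩

theorem conn (Q : P.Dart → Prop) (hne : ∃ d, Q d) (h1 : ∀ d, Q d → Q (P.rev d))
    (h2 : ∀ d, Q d → Q (P.rot d)) : ∀ d, Q d := by
  have := P.finite_dart
  have hfib : ∀ d d', P.base d = P.base d' → Q d → Q d' := by
    intro d d' h hd
    obtain ⟨k, hk⟩ : ∃ k : ℕ, (P.rot ^ k) d = d' := by
      obtain ⟨k, _, hk⟩ := ((P.rot_cycle d d').mpr h).exists_pow_eq'
      exact ⟨k, hk⟩
    rw [← hk]
    clear hk
    clear * - h2 hd
    induction k with
    | zero => exact hd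
    | succ k ih =>
      rw [pow_succ', Equiv.Perm.mul_apply]
      exact h2 _ ih
  obtain ⟨d₀, hd₀⟩ := hne
  have hv : ∀ v, ∀ d, P.base d = v → Q d := by
    intro v
    induction P.connected (P.base d₀) v with
    | refl => exact fun d hd => hfib d₀ d hd.symm hd₀
    | tail _ hstep ih =>
      obtain ⟨e, he1, he2⟩ := hstep
      intro d hd
      exact hfib (P.rev e) d (he2.trans hd.symm) (h1 _ (ih e he1))
  exact fun d => hv _ d rfl

theorem exact [Nonempty V] [Fintype P.Dart] (y : P.Dart → ZMod 2) (hy : ∀ d, y (P.rev d) = y d)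
    (hy' : ∀ u, ∑ d with P.base d = u, y d = 0) :
    ∃ Z : P.Face → ZMod 2, ∀ d, y d = Z (P.face d) + Z (P.face (P.rev d)) := by
  classical
  have := P.nonempty_dart
  have : Fintype P.Face := Fintype.ofFinite _
  refine PlaneHomology.exact_of_euler P.rev P.rot P.base P.face P.rev_rev P.rev_ne P.base_rot
    P.face_rot_rev P.base_surj P.face_surj P.conn ?_ y hy hy'
  have h := P.euler
  rw [Nat.card_eq_fintype_card, Nat.card_eq_fintype_card (α := P.Dart)] at h
  have h2 : Nat.card (Quotient (Equiv.Perm.SameCycle.setoid (P.rev.trans P.rot))) =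
    Fintype.card P.Face := Nat.card_eq_fintype_card
  rw [h2] at h
  omega

theorem even_cobd [Fintype P.Dart] (Z : P.Face → ZMod 2) (u : V) :
    ∑ d with P.base d = u, (Z (P.face d) + Z (P.face (P.rev d))) = 0 := by
  classical
  have : Fintype P.Face := Fintype.ofFinite _
  exact PlaneHomology.bdry_cobd P.rev P.rot P.base P.face P.rev_rev P.base_rot P.face_rot_rev Z u

theorem eq_of_cobd (Z Z' : P.Face → ZMod 2)
    (h : ∀ d, Z (P.face d) + Z (P.face (P.rev d)) = Z' (P.face d) + Z' (P.face (P.rev d)))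
    (f₀ : P.Face) (h0 : Z f₀ = Z' f₀) : ∀ f, Z f = Z' f := by
  obtain ⟨d₀, rfl⟩ := P.face_surj f₀
  have key : ∀ d, Z (P.face d) = Z' (P.face d) := by
    have hrev : ∀ d, Z (P.face d) = Z' (P.face d) →
        Z (P.face (P.rev d)) = Z' (P.face (P.rev d)) := by
      intro d hd
      have := h d
      rw [hd] at this
      exact add_left_cancel this
    apply P.conn _ ⟨d₀, h0⟩ hrev
    intro d hd
    have := P.face_rot_rev (P.rev d)
    rw [P.rev_rev] at this
    rw [this]
    exact hrev d hd
  intro f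
  obtain ⟨d, rfl⟩ := P.face_surj f
  exact key d

/-- The pair of end vertices of a dart. -/
def pr (d : P.Dart) : Sym2 V := s(P.base d, P.base (P.rev d))

theorem pr_rev (d : P.Dart) : P.pr (P.rev d) = P.pr d := by
  rw [pr, pr, P.rev_rev, Sym2.eq_swap]

/-- The darts chosen to represent the pairs in `E₀`. -/
def Chosen (E₀ : Finset (Sym2 V)) (D : Sym2 V → P.Dart) (d : P.Dart) : Prop :=
  ∃ s ∈ E₀, d = D s ∨ d = P.rev (D s)

open Classical in
/-- The function on darts given by a function on pairs. -/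
noncomputable def lift (E₀ : Finset (Sym2 V)) (D : Sym2 V → P.Dart) (h : Sym2 V → ZMod 2)
    (d : P.Dart) : ZMod 2 := if P.Chosen E₀ D d then h (P.pr d) else 0

/-- The coboundary of a function on faces. -/
def cob (Z : P.Face → ZMod 2) (d : P.Dart) : ZMod 2 := Z (P.face d) + Z (P.face (P.rev d))

theorem cob_rev (Z : P.Face → ZMod 2) (d : P.Dart) : P.cob Z (P.rev d) = P.cob Z d := by
  rw [cob, cob, P.rev_rev, add_comm]

variable {P} {E₀ : Finset (Sym2 V)} {D : Sym2 V → P.Dart}

theorem chosen_rev (d : P.Dart) : P.Chosen E₀ D (P.rev d) ↔ P.Chosen E₀ D d := by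
  constructor
  · rintro ⟨s, hs, h | h⟩
    · exact ⟨s, hs, Or.inr (by rw [← h, P.rev_rev])⟩
    · exact ⟨s, hs, Or.inl (P.rev.injective h)⟩
  · rintro ⟨s, hs, h | h⟩
    · exact ⟨s, hs, Or.inr (by rw [h])⟩
    · exact ⟨s, hs, Or.inl (by rw [h, P.rev_rev])⟩

theorem lift_rev (h : Sym2 V → ZMod 2) (d : P.Dart) :
    P.lift E₀ D h (P.rev d) = P.lift E₀ D h d := by
  rw [lift, lift, P.pr_rev]
  by_cases hd : P.Chosen E₀ D d
  · rw [if_pos hd, if_pos ((chosen_rev d).mpr hd)]
  · rw [if_neg hd, if_neg (fun h' => hd ((chosen_rev d).mp h'))]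

theorem lift_D (hD : ∀ s ∈ E₀, P.pr (D s) = s) (h : Sym2 V → ZMod 2) {s : Sym2 V}
    (hs : s ∈ E₀) : P.lift E₀ D h (D s) = h s := by
  rw [lift, if_pos ⟨s, hs, Or.inl rfl⟩, hD s hs]

theorem lift_sum [Fintype P.Dart] (hD : ∀ s ∈ E₀, P.pr (D s) = s)
    (hnd : ∀ s ∈ E₀, ¬ s.IsDiag) (h : Sym2 V → ZMod 2) (hsupp : ∀ s, s ∉ E₀ → h s = 0) (u : V) :
    ∑ d with P.base d = u, P.lift E₀ D h d = ∑ v, h s(u, v) := by
  classical
  rw [← Finset.sum_fiberwise (Finset.univ.filter (fun d => P.base d = u))
    (fun d => P.base (P.rev d))]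
  refine Finset.sum_congr rfl fun v _ => ?_
  by_cases hs : s(u, v) ∈ E₀
  · have huv : u ≠ v := fun h' => hnd _ hs h'
    have hpr := hD _ hs
    -- the chosen dart from u to v
    obtain ⟨d₀, hd₀u, hd₀v, hd₀⟩ : ∃ d₀, P.base d₀ = u ∧ P.base (P.rev d₀) = v ∧
        (d₀ = D s(u, v) ∨ d₀ = P.rev (D s(u, v))) := by
      have hpr' := hpr
      rw [pr, Sym2.eq_iff] at hpr'
      rcases hpr' with ⟨h1, h2⟩ | ⟨h1, h2⟩
      · exact ⟨_, h1, h2, Or.inl rfl⟩
      · exact ⟨P.rev (D s(u, v)), h2, by rw [P.rev_rev]; exact h1, Or.inr rfl⟩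
    have hch : P.Chosen E₀ D d₀ := ⟨_, hs, hd₀⟩
    have hprd₀ : P.pr d₀ = s(u, v) := by rw [pr, hd₀u, hd₀v]
    rw [Finset.sum_eq_single_of_mem d₀]
    · rw [lift, if_pos hch, hprd₀]
    · simp only [Finset.mem_filter, Finset.mem_univ, true_and]
      exact ⟨hd₀u, hd₀v⟩
    · intro d hd hne
      simp only [Finset.mem_filter, Finset.mem_univ, true_and] at hd
      rw [lift, if_neg]
      rintro ⟨s, hsE, hds⟩
      have hprd : P.pr d = s(u, v) := by rw [pr, hd.1, hd.2]
      have hss : s = s(u, v) := by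
        rw [← hprd]
        rcases hds with h' | h'
        · rw [h', hD s hsE]
        · rw [h', P.pr_rev, hD s hsE]
      rw [hss] at hds
      rcases hds with h' | h' <;> rcases hd₀ with h'' | h''
      · exact hne (h'.trans h''.symm)
      · have : P.rev d = d₀ := by rw [h', h'']
        rw [← this] at hd₀u
        exact huv (hd₀u.symm.trans hd.2)
      · have : P.rev d₀ = d := by rw [h', h'']
        rw [← this] at hd
        exact huv (hd.1.symm.trans hd₀v)
      · exact hne (h'.trans h''.symm)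
  · rw [hsupp _ hs]
    refine Finset.sum_eq_zero fun d hd => ?_
    simp only [Finset.mem_filter, Finset.mem_univ, true_and] at hd
    rw [lift, if_neg]
    rintro ⟨s, hsE, hds⟩
    have hprd : P.pr d = s(u, v) := by rw [pr, hd.1, hd.2]
    apply hs
    rw [← hprd]
    rcases hds with h' | h'
    · rw [h', hD s hsE]; exact hsE
    · rw [h', P.pr_rev, hD s hsE]; exact hsE

/-- A coboundary supported on chosen darts comes from an even function on pairs. -/
theorem exists_even_of_cob (hD : ∀ s ∈ E₀, P.pr (D s) = s) (hnd : ∀ s ∈ E₀, ¬ s.IsDiag)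
    (Z : P.Face → ZMod 2) (hZ : ∀ d, ¬ P.Chosen E₀ D d → P.cob Z d = 0) :
    ∃ h : Sym2 V → ZMod 2, Even₂ h ∧ (∀ s, s ∉ E₀ → h s = 0) ∧
      (∀ s ∈ E₀, h s = P.cob Z (D s)) ∧ ∀ d, P.cob Z d = P.lift E₀ D h d := by
  classical
  have := P.finite_dart
  have : Fintype P.Dart := Fintype.ofFinite _
  refine ⟨fun s => if s ∈ E₀ then P.cob Z (D s) else 0, ?_, fun s hs => if_neg hs,
    fun s hs => if_pos hs, ?_⟩
  swap
  · intro d
    rw [lift]
    by_cases hd : P.Chosen E₀ D d
    · rw [if_pos hd]
      obtain ⟨s, hs, h' | h'⟩ := hd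
      · rw [h', hD s hs, if_pos hs]
      · rw [h', P.pr_rev, hD s hs, if_pos hs, P.cob_rev]
    · rw [if_neg hd, hZ d hd]
  · intro u
    have h1 := lift_sum hD hnd (fun s => if s ∈ E₀ then P.cob Z (D s) else 0)
      (fun s hs => if_neg hs) u
    refine h1.symm.trans ?_
    have h2 : ∀ d, P.lift E₀ D (fun s => if s ∈ E₀ then P.cob Z (D s) else 0) d = P.cob Z d := by
      intro d
      rw [lift]
      by_cases hd : P.Chosen E₀ D d
      · rw [if_pos hd]
        obtain ⟨s, hs, h' | h'⟩ := hd
        · rw [h', hD s hs, if_pos hs]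
        · rw [h', P.pr_rev, hD s hs, if_pos hs, P.cob_rev]
      · rw [if_neg hd, hZ d hd]
    rw [Finset.sum_congr rfl (fun d _ => h2 d)]
    exact P.even_cobd Z u

/-- Every triangle is the boundary of a set of faces avoiding a given face. -/
theorem exists_inside [Nonempty V] (hD : ∀ s ∈ E₀, P.pr (D s) = s)
    (hnd : ∀ s ∈ E₀, ¬ s.IsDiag) (f₀ : P.Face) {T : Finset (Sym2 V)} (hT : IsTri T)
    (hTE : T ⊆ E₀) : ∃ Z : P.Face → ZMod 2, Z f₀ = 0 ∧
      ∀ d, P.cob Z d = P.lift E₀ D (fun t => if t ∈ T then 1 else 0) d := by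
  classical
  have := P.finite_dart
  have : Fintype P.Dart := Fintype.ofFinite _
  obtain ⟨a, b, c, h1, h2, h3, rfl⟩ := hT
  obtain ⟨Z, hZ⟩ := P.exact (P.lift E₀ D (fun t => if t ∈ tri a b c then 1 else 0))
    (fun d => lift_rev _ d) (fun u => by
      rw [lift_sum hD hnd _ (fun s hs => if_neg (fun h => hs (hTE h)))]
      exact even_tri_ind h1 h2 h3 1 u)
  refine ⟨fun f => Z f + Z f₀, PlaneHomology.add_self₂ _, fun d => ?_⟩
  rw [hZ d, cob]
  have : ∀ x y z : ZMod 2, x + z + (y + z) = x + y := by decide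
  exact this _ _ _

/-- Two functions on the faces with the same coboundary and the same value at one face agree. -/
theorem eq_of_cob (Z Z' : P.Face → ZMod 2) (h : ∀ d, P.cob Z d = P.cob Z' d) (f₀ : P.Face)
    (h0 : Z f₀ = Z' f₀) : ∀ f, Z f = Z' f := P.eq_of_cobd Z Z' h f₀ h0

/-- The insides of two triangles are nested or disjoint. -/
theorem laminar (hD : ∀ s ∈ E₀, P.pr (D s) = s)
    (hnd : ∀ s ∈ E₀, ¬ s.IsDiag) (f₀ : P.Face) {T T' : Finset (Sym2 V)} (hT : IsTri T)
    (hT' : IsTri T') (hne : T ≠ T') (Z Z' : P.Face → ZMod 2)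
    (hZ0 : Z f₀ = 0) (hZ0' : Z' f₀ = 0)
    (hZ : ∀ d, P.cob Z d = P.lift E₀ D (fun t => if t ∈ T then 1 else 0) d)
    (hZ' : ∀ d, P.cob Z' d = P.lift E₀ D (fun t => if t ∈ T' then 1 else 0) d) :
    (∀ φ, Z φ = 1 → Z' φ ≠ 1) ∨ (∀ φ, Z φ = 1 → Z' φ = 1) ∨ (∀ φ, Z' φ = 1 → Z φ = 1) := by
  classical
  -- the intersection
  have hsame : ∀ d, P.cob Z d = 0 → P.cob Z' d = 0 → P.cob (fun f => Z f * Z' f) d = 0 := by
    intro d h1 h2
    rw [cob] at h1 h2 ⊢
    rw [PlaneHomology.eq_of_add_eq_zero₂ h1, PlaneHomology.eq_of_add_eq_zero₂ h2,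
      PlaneHomology.add_self₂]
  have hlift0 : ∀ (h : Sym2 V → ZMod 2) d, ¬ P.Chosen E₀ D d → P.lift E₀ D h d = 0 :=
    fun h d hd => by rw [lift, if_neg hd]
  obtain ⟨h, heven, hE, hval, hcob⟩ := exists_even_of_cob (P := P) hD hnd (fun f => Z f * Z' f) (by
    intro d hd
    exact hsame d (by rw [hZ, hlift0 _ _ hd]) (by rw [hZ', hlift0 _ _ hd]))
  obtain ⟨s, s', hss⟩ := even_two_tri heven hT hT' hne (by
    intro t ht ht'
    by_cases htE : t ∈ E₀
    · rw [hval t htE]
      apply hsame
      · rw [hZ, lift_D hD _ htE, if_neg ht]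
      · rw [hZ', lift_D hD _ htE, if_neg ht']
    · exact hE t htE)
  have hmain : ∀ f, Z f * Z' f = s * Z f + s' * Z' f := by
    apply eq_of_cob (fun f => Z f * Z' f) (fun f => s * Z f + s' * Z' f) _ f₀
    · simp only [hZ0, hZ0', mul_zero, add_zero]
    · intro d
      rw [hcob]
      have h1 : P.cob (fun f => s * Z f + s' * Z' f) d = s * P.cob Z d + s' * P.cob Z' d := by
        simp only [cob]; ring
      rw [h1, hZ, hZ', lift, lift, lift]
      by_cases hd : P.Chosen E₀ D d
      · rw [if_pos hd, if_pos hd, if_pos hd, hss]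
        simp only [mul_ite, mul_one, mul_zero]
      · rw [if_neg hd, if_neg hd, if_neg hd]
        ring
  rcases TwoTorsion.mod_two_cases s with rfl | rfl <;>
    rcases TwoTorsion.mod_two_cases s' with rfl | rfl
  · left
    intro φ h1 h2
    have := hmain φ
    rw [h1, h2] at this
    exact absurd this (by decide)
  · right; right
    intro φ h1
    have := hmain φ
    rw [h1] at this
    simpa using this
  · right; left
    intro φ h1
    have := hmain φ
    rw [h1] at this
    simpa using this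
  · left
    intro φ h1 h2
    have := hmain φ
    rw [h1, h2] at this
    exact absurd this (by decide)

/-- Relations among linearly independent triangles of a plane graph are killed by two. -/
theorem triangle_torsion [Nonempty V] {R : Type} [AddCommGroup R]
    (hD : ∀ s ∈ E₀, P.pr (D s) = s) (hnd : ∀ s ∈ E₀, ¬ s.IsDiag)
    (S : Finset (Finset (Sym2 V))) (hS : ∀ T ∈ S, IsTri T ∧ T ⊆ E₀)
    (hind : ∀ c : Finset (Sym2 V) → ℚ, (∀ s, ∑ T ∈ S with s ∈ T, c T = 0) → ∀ T ∈ S, c T = 0)
    (a : Finset (Sym2 V) → R) (ha : ∀ s, ∑ T ∈ S with s ∈ T, a T = 0) :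
    ∀ T ∈ S, a T + a T = 0 := by
  classical
  obtain ⟨d₀⟩ := P.nonempty_dart
  set f₀ := P.face d₀ with hf₀
  have hex : ∀ T : Finset (Sym2 V), ∃ Z : P.Face → ZMod 2, T ∈ S → Z f₀ = 0 ∧
      ∀ d, P.cob Z d = P.lift E₀ D (fun t => if t ∈ T then 1 else 0) d := by
    intro T
    by_cases hT : T ∈ S
    · obtain ⟨Z, hZ⟩ := exists_inside hD hnd f₀ (hS T hT).1 (hS T hT).2
      exact ⟨Z, fun _ => hZ⟩
    · exact ⟨0, fun h => absurd h hT⟩
  choose Z hZ using hex
  have hcobD : ∀ T ∈ S, ∀ s ∈ E₀, P.cob (Z T) (D s) = if s ∈ T then 1 else 0 := by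
    intro T hT s hs
    rw [(hZ T hT).2, lift_D hD _ hs]
  have h1 : ∀ T ∈ S, ∀ s ∈ E₀, (s ∈ T ↔ Z T (P.face (D s)) ≠ Z T (P.face (P.rev (D s)))) := by
    intro T hT s hs
    have := hcobD T hT s hs
    rw [cob] at this
    constructor
    · intro hsT heq
      rw [if_pos hsT, heq, PlaneHomology.add_self₂] at this
      exact absurd this (by decide)
    · intro hne
      by_contra hsT
      rw [if_neg hsT] at this
      exact hne (PlaneHomology.eq_of_add_eq_zero₂ this)
  have h3 : ∀ T ∈ S, ∃ φ, Z T φ = 1 := by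
    intro T hT
    obtain ⟨⟨a, b, c, g1, g2, g3, hTeq⟩, hTE⟩ := hS T hT
    have hmem : s(a, b) ∈ T := by rw [hTeq, mem_tri]; tauto
    have := (h1 T hT _ (hTE hmem)).mp hmem
    by_contra hcon
    push Not at hcon
    apply this
    have z : ∀ φ, Z T φ = 0 := fun φ => by
      rcases TwoTorsion.mod_two_cases (Z T φ) with h | h
      · exact h
      · exact absurd h (hcon φ)
    rw [z, z]
  -- sums of insides
  have hsumcob : ∀ C ⊆ S, ∀ d, P.cob (fun φ => ∑ T ∈ C, Z T φ) d =
      P.lift E₀ D (fun s => (((C.filter (fun T => s ∈ T)).card : ℕ) : ZMod 2)) d := by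
    intro C hC d
    have e1 : P.cob (fun φ => ∑ T ∈ C, Z T φ) d = ∑ T ∈ C, P.cob (Z T) d := by
      simp only [cob, Finset.sum_add_distrib]
    rw [e1, Finset.sum_congr rfl (fun T hT => (hZ T (hC hT)).2 d)]
    simp only [lift]
    by_cases hd : P.Chosen E₀ D d
    · simp only [if_pos hd]
      rw [Finset.card_filter, Nat.cast_sum]
      refine Finset.sum_congr rfl fun T _ => ?_
      split_ifs <;> simp
    · simp only [if_neg hd, Finset.sum_const_zero]
  have hsum0 : ∀ C ⊆ S, ∑ T ∈ C, Z T f₀ = 0 := fun C hC =>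
    Finset.sum_eq_zero fun T hT => (hZ T (hC hT)).1
  refine TwoTorsion.two_torsion E₀ S Z (fun s => P.face (D s)) (fun s => P.face (P.rev (D s)))
    (fun T hT => (hS T hT).2) ?_ h1 ?_ h3 ?_ ?_ S.card S subset_rfl le_rfl hind a ha
  · intro T hT
    obtain ⟨⟨a, b, c, g1, g2, g3, rfl⟩, _⟩ := hS T hT
    exact tri_card g1 g2 g3
  · intro T hT T' hT' hne
    exact laminar hD hnd f₀ (hS T hT).1 (hS T' hT').1 hne _ _
      (hZ T hT).1 (hZ T' hT').1 (hZ T hT).2 (hZ T' hT').2
  · intro C hC hpar
    apply eq_of_cob (fun φ => ∑ T ∈ C, Z T φ) (fun _ => 0) _ f₀ (hsum0 C hC)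
    intro d
    rw [hsumcob C hC, lift]
    by_cases hd : P.Chosen E₀ D d
    · rw [if_pos hd]
      obtain ⟨s, hs, h' | h'⟩ := hd
      · rw [h', hD s hs, hpar s hs]; rfl
      · rw [h', P.pr_rev, hD s hs, hpar s hs]; rfl
    · rw [if_neg hd]; rfl
  · intro T hT C hC hpar
    obtain ⟨h, heven, hE, hval, hcob⟩ := exists_even_of_cob (P := P) hD hnd
      (fun φ => ∑ T ∈ C, Z T φ) (by
        intro d hd
        rw [hsumcob C hC, lift, if_neg hd])
    have hval' : ∀ s ∈ E₀, h s = (((C.filter (fun T => s ∈ T)).card : ℕ) : ZMod 2) := by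
      intro s hs
      rw [hval s hs, hsumcob C hC, lift_D hD _ hs]
    have hT' := hT
    obtain ⟨⟨a, b, c, g1, g2, g3, hTeq⟩, hTE⟩ := hS T hT
    have htri := even_tri heven g1 g2 g3 (by
      intro t ht
      by_cases htE : t ∈ E₀
      · rw [hval' t htE]
        exact hpar t htE (by rw [hTeq]; exact ht)
      · exact hE t htE)
    rw [← hTeq] at htri
    rcases TwoTorsion.mod_two_cases (h s(a, b)) with h0 | h0
    · left
      apply eq_of_cob (fun φ => ∑ T ∈ C, Z T φ) (fun _ => 0) _ f₀ (hsum0 C hC)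
      intro d
      rw [hcob]
      have : P.cob (fun _ => 0) d = 0 := rfl
      rw [this, lift]
      split_ifs with hd
      · rw [htri, h0, ite_self]
      · rfl
    · right
      constructor
      · apply eq_of_cob (fun φ => ∑ T ∈ C, Z T φ) (Z T) _ f₀
        · rw [(hZ T hT).1]; exact hsum0 C hC
        · intro d
          rw [hcob, (hZ T hT).2, lift, lift]
          by_cases hd : P.Chosen E₀ D d
          · rw [if_pos hd, if_pos hd, htri, h0]
          · rw [if_neg hd, if_neg hd]
      · intro s hs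
        rw [← hval' s (hTE hs), htri, if_pos hs, h0]

end PlaneMap

/-! ### From multigraphs to weights on triples and back -/

namespace Multigraph

variable {V E : Type} [Fintype V] [DecidableEq V] [Fintype E] [DecidableEq E]
  (G : Multigraph V E)

theorem image_isTri {t : Finset E} (ht : G.IsTriangle t) : IsTri (t.image G.ends) := by
  obtain ⟨u, v, w, e₁, e₂, e₃, h1, h2, h3, g1, g2, g3, rfl⟩ := ht
  refine ⟨u, v, w, h1, h2, h3, ?_⟩
  rw [Finset.image_insert, Finset.image_insert, Finset.image_singleton, g1, g2, g3, tri]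

theorem unique_edge {t : Finset E} (ht : G.IsTriangle t) {e e' : E} (he : e ∈ t) (he' : e' ∈ t)
    (h : G.ends e = G.ends e') : e = e' := by
  obtain ⟨u, v, w, e₁, e₂, e₃, h1, h2, h3, g1, g2, g3, rfl⟩ := ht
  have n1 : (s(u, v) : Sym2 V) ≠ s(v, w) := by
    intro h
    rw [Sym2.eq_iff] at h
    rcases h with ⟨h, -⟩ | ⟨h, -⟩
    · exact h1 h
    · exact h3 h.symm
  have n2 : (s(u, v) : Sym2 V) ≠ s(w, u) := by
    intro h
    rw [Sym2.eq_iff] at h
    rcases h with ⟨h, -⟩ | ⟨-, h⟩
    · exact h3 h.symm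
    · exact h2 h
  have n3 : (s(v, w) : Sym2 V) ≠ s(w, u) := by
    intro h
    rw [Sym2.eq_iff] at h
    rcases h with ⟨h, -⟩ | ⟨h, -⟩
    · exact h2 h
    · exact h1 h.symm
  simp only [Finset.mem_insert, Finset.mem_singleton] at he he'
  rcases he with rfl | rfl | rfl <;> rcases he' with rfl | rfl | rfl
  · rfl
  · exact absurd (g1.symm.trans (h.trans g2)) n1
  · exact absurd (g1.symm.trans (h.trans g3)) n2
  · exact absurd (g1.symm.trans (h.symm.trans g2)) n1
  · rfl
  · exact absurd (g2.symm.trans (h.trans g3)) n3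
  · exact absurd (g1.symm.trans (h.symm.trans g3)) n2
  · exact absurd (g2.symm.trans (h.symm.trans g3)) n3
  · rfl

open Classical in
/-- The sums of the weights of a decomposition over the triangles of each shape. -/
theorem shape_sum (w : {t : Finset E // G.IsTriangle t} → ℚ) (hw : G.IsRationalDecomposition w)
    (s : Sym2 V) :
    ∑ T ∈ Finset.univ.image (fun t : {t : Finset E // G.IsTriangle t} => t.1.image G.ends),
      (if s ∈ T then (1 : ℚ) else 0) * (∑ t with t.1.image G.ends = T, w t) =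
      ((Finset.univ.filter (fun e => G.ends e = s)).card : ℚ) := by
  have h1 : ∑ T ∈ Finset.univ.image (fun t : {t : Finset E // G.IsTriangle t} =>
      t.1.image G.ends), (if s ∈ T then (1 : ℚ) else 0) * (∑ t with t.1.image G.ends = T, w t) =
      ∑ t : {t : Finset E // G.IsTriangle t}, (if s ∈ t.1.image G.ends then (1 : ℚ) else 0) * w t := by
    rw [← Finset.sum_fiberwise_of_maps_to (s := Finset.univ) (g := fun t :
      {t : Finset E // G.IsTriangle t} => t.1.image G.ends) (t := Finset.univ.image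
      (fun t : {t : Finset E // G.IsTriangle t} => t.1.image G.ends))
      (fun t _ => Finset.mem_image_of_mem _ (Finset.mem_univ t))]
    refine Finset.sum_congr rfl fun T _ => ?_
    rw [Finset.mul_sum]
    refine Finset.sum_congr rfl fun t ht => ?_
    rw [(Finset.mem_filter.mp ht).2]
  rw [h1]
  have h2 : ∀ t : {t : Finset E // G.IsTriangle t},
      (if s ∈ t.1.image G.ends then (1 : ℚ) else 0) * w t =
      ∑ e with G.ends e = s, (if e ∈ t.1 then w t else 0) := by
    intro t
    by_cases hs : s ∈ t.1.image G.ends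
    · rw [if_pos hs, one_mul]
      obtain ⟨e, he, hes⟩ := Finset.mem_image.mp hs
      rw [Finset.sum_eq_single_of_mem e (by simp [hes]), if_pos he]
      intro e' he' hne
      rw [if_neg]
      intro h'
      apply hne
      rw [Finset.mem_filter] at he'
      exact G.unique_edge t.2 h' he (he'.2.trans hes.symm)
    · rw [if_neg hs, zero_mul]
      symm
      refine Finset.sum_eq_zero fun e he => ?_
      rw [if_neg]
      intro h'
      apply hs
      rw [Finset.mem_filter] at he
      rw [← he.2]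
      exact Finset.mem_image_of_mem _ h'
  rw [Finset.sum_congr rfl (fun t _ => h2 t), Finset.sum_comm]
  have h3 : ∀ e ∈ Finset.univ.filter (fun e => G.ends e = s),
      ∑ t : {t : Finset E // G.IsTriangle t}, (if e ∈ t.1 then w t else 0) = 1 := by
    intro e _
    rw [← Finset.sum_filter]
    exact hw.2 e
  rw [Finset.sum_congr rfl h3, Finset.sum_const, nsmul_eq_mul, mul_one]

open Classical in
/-- Half-integral weights on triples give a decomposition with weights `0`, `1/2`, `1`. -/
theorem distribute (S : Finset (Finset (Sym2 V))) (hS : ∀ T ∈ S, IsTri T)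
    (N : Finset (Sym2 V) → ℕ)
    (hN : ∀ s, ∑ T ∈ S with s ∈ T, N T = 2 * (Finset.univ.filter (fun e => G.ends e = s)).card) :
    ∃ w : {t : Finset E // G.IsTriangle t} → ℚ, G.IsRationalDecomposition w ∧
      ∀ t, w t = 0 ∨ w t = 1 / 2 ∨ w t = 1 := by
  -- the half units
  let U : Type := Σ T : {T // T ∈ S}, Fin (N T.1)
  have hcard : ∀ s, Fintype.card {u : U // s ∈ u.1.1} =
      Fintype.card ({e : E // G.ends e = s} × Bool) := by
    intro s
    rw [Fintype.card_prod, Fintype.card_bool, Fintype.card_subtype, Fintype.card_subtype]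
    have h1 : (Finset.univ.filter (fun u : U => s ∈ u.1.1)).card =
        ∑ T ∈ S with s ∈ T, N T := by
      rw [Finset.card_filter, Fintype.sum_sigma]
      have h2 : ∀ T : {T // T ∈ S}, ∑ k : Fin (N T.1), (if s ∈ T.1 then 1 else 0) =
          if s ∈ T.1 then N T.1 else 0 := by
        intro T
        rw [Finset.sum_const, Finset.card_univ, Fintype.card_fin]
        split_ifs <;> simp
      rw [Finset.sum_congr rfl (fun T _ => h2 T), Finset.sum_filter]
      exact Finset.sum_coe_sort S (fun T => if s ∈ T then N T else 0)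
    rw [h1, hN s, mul_comm]
  let β : ∀ s, {u : U // s ∈ u.1.1} ≃ {e : E // G.ends e = s} × Bool :=
    fun s => Fintype.equivOfCardEq (hcard s)
  let pick : ∀ (s : Sym2 V) (u : U), s ∈ u.1.1 → E := fun s u h => (β s ⟨u, h⟩).1.1
  have hpick : ∀ s u h, G.ends (pick s u h) = s := fun s u h => (β s ⟨u, h⟩).1.2
  have hpickc : ∀ s s' u h h', s = s' → pick s u h = pick s' u h' := by
    rintro s _ u h h' rfl
    rfl
  let τ : U → Finset E := fun u =>
    Finset.univ.filter (fun e => ∃ h : G.ends e ∈ u.1.1, pick (G.ends e) u h = e)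
  have hτmem : ∀ u e, e ∈ τ u ↔ ∃ h : G.ends e ∈ u.1.1, pick (G.ends e) u h = e := by
    intro u e
    simp [τ]
  have hpickτ : ∀ s u h, pick s u h ∈ τ u := by
    intro s u h
    rw [hτmem]
    refine ⟨by rw [hpick]; exact h, ?_⟩
    exact hpickc _ _ _ _ _ (hpick s u h)
  have hτtri : ∀ u, G.IsTriangle (τ u) := by
    intro u
    obtain ⟨a, b, c, h1, h2, h3, hT⟩ := hS u.1.1 u.1.2
    have m1 : s(a, b) ∈ u.1.1 := by rw [hT, mem_tri]; tauto
    have m2 : s(b, c) ∈ u.1.1 := by rw [hT, mem_tri]; tauto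
    have m3 : s(c, a) ∈ u.1.1 := by rw [hT, mem_tri]; tauto
    refine ⟨a, b, c, pick _ u m1, pick _ u m2, pick _ u m3, h1, h2, h3, hpick _ _ _,
      hpick _ _ _, hpick _ _ _, ?_⟩
    ext e
    simp only [Finset.mem_insert, Finset.mem_singleton]
    constructor
    · intro he
      rw [hτmem] at he
      obtain ⟨h, he⟩ := he
      have h' := h
      rw [hT] at h'
      simp only [tri, Finset.mem_insert, Finset.mem_singleton] at h'
      rcases h' with h' | h' | h'
      · left; rw [← he]; exact hpickc _ _ _ _ _ h'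
      · right; left; rw [← he]; exact hpickc _ _ _ _ _ h'
      · right; right; rw [← he]; exact hpickc _ _ _ _ _ h'
    · rintro (rfl | rfl | rfl)
      · exact hpickτ _ _ _
      · exact hpickτ _ _ _
      · exact hpickτ _ _ _
  have htwo : ∀ e, (Finset.univ.filter (fun u : U => e ∈ τ u)).card = 2 := by
    intro e
    let b : Bool → U := fun i => ((β (G.ends e)).symm (⟨e, rfl⟩, i)).1
    have hb : ∀ i, e ∈ τ (b i) := by
      intro i
      rw [hτmem]
      refine ⟨((β (G.ends e)).symm (⟨e, rfl⟩, i)).2, ?_⟩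
      change ((β (G.ends e)) ((β (G.ends e)).symm (⟨e, rfl⟩, i))).1.1 = e
      rw [Equiv.apply_symm_apply]
    have hbinj : b false ≠ b true := by
      intro h
      have h1 : (β (G.ends e)).symm (⟨e, rfl⟩, false) = (β (G.ends e)).symm (⟨e, rfl⟩, true) :=
        Subtype.ext h
      have h2 := congrArg Prod.snd ((β (G.ends e)).symm.injective h1)
      exact Bool.false_ne_true h2
    have heq : Finset.univ.filter (fun u : U => e ∈ τ u) = {b false, b true} := by
      ext u
      simp only [Finset.mem_filter, Finset.mem_univ, true_and, Finset.mem_insert,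
        Finset.mem_singleton]
      constructor
      · intro hu
        rw [hτmem] at hu
        obtain ⟨h, hu⟩ := hu
        have h3 : u = b ((β (G.ends e) ⟨u, h⟩).2) := by
          have h4 : (β (G.ends e) ⟨u, h⟩) = (⟨e, rfl⟩, (β (G.ends e) ⟨u, h⟩).2) :=
            Prod.ext (Subtype.ext hu) rfl
          change u = ((β (G.ends e)).symm (⟨e, rfl⟩, (β (G.ends e) ⟨u, h⟩).2)).1
          rw [← h4, Equiv.symm_apply_apply]
        cases hc : (β (G.ends e) ⟨u, h⟩).2 with
        | false => left; rw [hc] at h3; exact h3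
        | true => right; rw [hc] at h3; exact h3
      · rintro (rfl | rfl)
        · exact hb _
        · exact hb _
    rw [heq, Finset.card_pair hbinj]
  refine ⟨fun t => ((Finset.univ.filter (fun u : U => τ u = t.1)).card : ℚ) / 2, ⟨?_, ?_⟩, ?_⟩
  · intro t
    positivity
  · intro e
    rw [← Finset.sum_div]
    have h1 : ∑ t : {t : Finset E // G.IsTriangle t} with e ∈ t.1,
        ((Finset.univ.filter (fun u : U => τ u = t.1)).card : ℚ) =
        ((Finset.univ.filter (fun u : U => e ∈ τ u)).card : ℚ) := by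
      rw [← Nat.cast_sum]
      congr 1
      rw [Finset.card_eq_sum_card_fiberwise (f := fun u : U =>
        (⟨τ u, hτtri u⟩ : {t : Finset E // G.IsTriangle t}))
        (t := Finset.univ.filter (fun t : {t : Finset E // G.IsTriangle t} => e ∈ t.1))]
      · refine Finset.sum_congr rfl fun t ht => ?_
        congr 1
        ext u
        simp only [Finset.mem_filter, Finset.mem_univ, true_and] at ht ⊢
        constructor
        · intro h
          exact ⟨by rw [h]; exact ht, Subtype.ext h⟩
        · rintro ⟨-, h⟩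
          exact congrArg Subtype.val h
      · intro u hu
        simp only [Finset.coe_filter, Finset.mem_univ, true_and, Set.mem_ofPred_eq] at hu ⊢
        exact hu
    rw [h1, htwo e]
    norm_num
  · intro t
    obtain ⟨e, he⟩ : ∃ e, e ∈ t.1 := by
      obtain ⟨u, v, w, e₁, e₂, e₃, -, -, -, -, -, -, h⟩ := t.2
      exact ⟨e₁, by rw [h]; simp⟩
    have hle : (Finset.univ.filter (fun u : U => τ u = t.1)).card ≤ 2 := by
      rw [← htwo e]
      apply Finset.card_le_card
      intro u hu
      simp only [Finset.mem_filter, Finset.mem_univ, true_and] at hu ⊢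
      rw [hu]; exact he
    interval_cases hc : (Finset.univ.filter (fun u : U => τ u = t.1)).card
    · left; norm_num [hc]
    · right; left; norm_num [hc]
    · right; right; norm_num [hc]

end Multigraph

open Classical in
/-- **Full answer to Q1.** Every rationally triangle-decomposable planar multigraph has a rational
triangle decomposition in which every weight is `0`, `1/2` or `1`. -/
theorem result (V E : Type) [Fintype V] [Fintype E] [DecidableEq E] (G : Multigraph V E)
    (hG : G.Planar) (h : ∃ w, G.IsRationalDecomposition w) :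
    ∃ w, G.IsRationalDecomposition w ∧ ∀ t, w t = 0 ∨ w t = 1 / 2 ∨ w t = 1 := by
  obtain ⟨w₀, hw₀⟩ := h
  by_cases hV : Nonempty V
  swap
  · refine ⟨w₀, hw₀, ?_⟩
    rintro ⟨t, u, _⟩
    exact absurd ⟨u⟩ hV
  obtain ⟨P, f, hf, -⟩ := hG hV
  obtain ⟨d₀⟩ := P.nonempty_dart
  set 𝒯 := Finset.univ.image (fun t : {t : Finset E // G.IsTriangle t} => t.1.image G.ends)
    with h𝒯
  let x : Finset (Sym2 V) → ℚ := fun T => ∑ t with t.1.image G.ends = T, w₀ t
  obtain ⟨S, hS𝒯, y, hy, hAy, hind⟩ := TwoTorsion.exists_basic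
    (fun (T : Finset (Sym2 V)) (s : Sym2 V) => if s ∈ T then (1 : ℚ) else 0) 𝒯.card 𝒯 le_rfl x
    (fun T _ => Finset.sum_nonneg fun t _ => hw₀.1 t)
  have hsumy : ∀ s, ∑ T ∈ S with s ∈ T, y T =
      ((Finset.univ.filter (fun e => G.ends e = s)).card : ℚ) := by
    intro s
    rw [← G.shape_sum w₀ hw₀ s, Finset.sum_filter]
    refine Eq.trans ?_ (hAy s)
    refine Finset.sum_congr rfl fun T _ => ?_
    split_ifs <;> simp
  -- the pairs joined by edges and their darts
  set E₀ : Finset (Sym2 V) := Finset.univ.image G.ends with hE₀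
  let D : Sym2 V → P.Dart := fun s => if h : ∃ e, G.ends e = s then f h.choose else d₀
  have hD : ∀ s ∈ E₀, P.pr (D s) = s := by
    intro s hs
    obtain ⟨e, _, he⟩ := Finset.mem_image.mp hs
    have hex : ∃ e, G.ends e = s := ⟨e, he⟩
    change P.pr (if h : ∃ e, G.ends e = s then f h.choose else d₀) = s
    rw [dif_pos hex]
    exact (hf _).trans hex.choose_spec
  have hnd : ∀ s ∈ E₀, ¬ s.IsDiag := by
    intro s hs
    obtain ⟨e, _, he⟩ := Finset.mem_image.mp hs
    rw [← he]
    exact G.no_loop e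
  have hS : ∀ T ∈ S, IsTri T ∧ T ⊆ E₀ := by
    intro T hT
    obtain ⟨t, _, ht⟩ := Finset.mem_image.mp (hS𝒯 hT)
    refine ⟨by rw [← ht]; exact G.image_isTri t.2, ?_⟩
    rw [← ht]
    intro s hs
    obtain ⟨e, _, he⟩ := Finset.mem_image.mp hs
    exact Finset.mem_image.mpr ⟨e, Finset.mem_univ _, he⟩
  have htors := PlaneMap.triangle_torsion (P := P) (R := ℚ ⧸ AddSubgroup.zmultiples (1 : ℚ))
    hD hnd S hS (fun c hc T hT => hind c (fun s => by
      refine Eq.trans ?_ (hc s)
      rw [Finset.sum_filter]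
      refine Finset.sum_congr rfl fun T _ => ?_
      split_ifs <;> simp) T hT)
    (fun T => (QuotientAddGroup.mk (y T) : ℚ ⧸ AddSubgroup.zmultiples (1 : ℚ))) (fun s => by
      have h1 : ∑ T ∈ S with s ∈ T, (QuotientAddGroup.mk (y T) :
          ℚ ⧸ AddSubgroup.zmultiples (1 : ℚ)) =
          QuotientAddGroup.mk' (AddSubgroup.zmultiples (1 : ℚ)) (∑ T ∈ S with s ∈ T, y T) := by
        rw [map_sum]
        rfl
      rw [h1, hsumy s]
      change (QuotientAddGroup.mk _ : ℚ ⧸ AddSubgroup.zmultiples (1 : ℚ)) = 0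
      rw [QuotientAddGroup.eq_zero_iff, AddSubgroup.mem_zmultiples_iff]
      exact ⟨((Finset.univ.filter (fun e => G.ends e = s)).card : ℤ), by simp⟩)
  have hN : ∀ T ∈ S, ∃ k : ℕ, (k : ℚ) = 2 * y T := by
    intro T hT
    have h1 := htors T hT
    have h2 : (QuotientAddGroup.mk (y T + y T) : ℚ ⧸ AddSubgroup.zmultiples (1 : ℚ)) = 0 := h1
    rw [QuotientAddGroup.eq_zero_iff, AddSubgroup.mem_zmultiples_iff] at h2
    obtain ⟨k, hk⟩ := h2
    have hk' : (k : ℚ) = y T + y T := by simpa using hk
    have hpos := hy T hT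
    have hk0 : 0 ≤ k := by
      have : (0 : ℚ) ≤ k := by rw [hk']; linarith
      exact_mod_cast this
    refine ⟨k.toNat, ?_⟩
    have h3 : ((k.toNat : ℤ) : ℚ) = (k : ℚ) := by rw [Int.toNat_of_nonneg hk0]
    have h4 : ((k.toNat : ℕ) : ℚ) = (k : ℚ) := by rw [← h3]; norm_cast
    rw [h4, hk']; ring
  let N : Finset (Sym2 V) → ℕ := fun T => if h : T ∈ S then (hN T h).choose else 0
  have hN' : ∀ T ∈ S, (N T : ℚ) = 2 * y T := by
    intro T hT
    change (((if h : T ∈ S then (hN T h).choose else 0 : ℕ)) : ℚ) = 2 * y T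
    rw [dif_pos hT]
    exact (hN T hT).choose_spec
  refine G.distribute S (fun T hT => (hS T hT).1) N ?_
  intro s
  have h1 : ((∑ T ∈ S with s ∈ T, N T : ℕ) : ℚ) =
      ((2 * (Finset.univ.filter (fun e => G.ends e = s)).card : ℕ) : ℚ) := by
    rw [Nat.cast_sum, Nat.cast_mul, Nat.cast_ofNat, ← hsumy s, Finset.mul_sum]
    exact Finset.sum_congr rfl fun T hT => hN' T (Finset.mem_filter.mp hT).1
  exact_mod_cast h1

end Pool.Agent.Results.MP_d6a58d_co.HalfIntegral
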